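import Pool.Agent.Q92.AR.Stm2

set_option autoImplicit false
set_option linter.unusedSectionVars false
set_option linter.deprecated false

/-!
Lemma job CROSS of project AR (helper92): crossing with a cyclotomic extension.
-/

namespace Pool.Agent.Q129.AR

open NumberField IsDedekindDomain Pool.Agent.Q5.BR Pool.Agent.Q92.AR

section split

variable {F L C : Type} [Field F] [NumberField F] [Field L] [NumberField L] [Field C] [NumberField C]
  [Algebra F L] [Algebra L C] [Algebra F C] [IsScalarTower F L C]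

lemma one_lt_norm (p : HeightOneSpectrum (𝓞 F)) : 1 < Ideal.absNorm p.asIdeal := by
  have h0 : Ideal.absNorm p.asIdeal ≠ 0 := by
    rw [Ne, Ideal.absNorm_eq_zero_iff]
    exact p.ne_bot
  have h1 : Ideal.absNorm p.asIdeal ≠ 1 := by
    rw [Ne, Ideal.absNorm_eq_one_iff]
    exact p.isPrime.ne_top
  omega

lemma rdeg_one {P : HeightOneSpectrum (𝓞 L)}
    (h : ∀ x : 𝓞 L, x ^ Ideal.absNorm (P.under (𝓞 F)).asIdeal - x ∈ P.asIdeal) : rdeg F P = 1 := by
  classical
  set q := Ideal.absNorm (P.under (𝓞 F)).asIdeal with hq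
  have hq1 : 1 < q := one_lt_norm _
  have hP : P.asIdeal.IsMaximal := P.isMaximal
  let _ : Field (𝓞 L ⧸ P.asIdeal) := Ideal.Quotient.field _
  have hcard : Nat.card (𝓞 L ⧸ P.asIdeal) = q ^ rdeg F P := by
    rw [hq, ← absNorm_rdeg]
    rfl
  have hfin : Finite (𝓞 L ⧸ P.asIdeal) := by
    refine Nat.finite_of_card_ne_zero ?_
    rw [hcard]
    positivity
  have := Fintype.ofFinite (𝓞 L ⧸ P.asIdeal)
  have hf : (Polynomial.X ^ q - Polynomial.X : Polynomial (𝓞 L ⧸ P.asIdeal)) ≠ 0 :=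
    FiniteField.X_pow_card_sub_X_ne_zero _ hq1
  have hroot : ∀ y : 𝓞 L ⧸ P.asIdeal,
      y ∈ (Polynomial.X ^ q - Polynomial.X : Polynomial (𝓞 L ⧸ P.asIdeal)).roots.toFinset := by
    intro y
    obtain ⟨x, rfl⟩ := Ideal.Quotient.mk_surjective y
    rw [Multiset.mem_toFinset, Polynomial.mem_roots hf, Polynomial.IsRoot.def, Polynomial.eval_sub,
      Polynomial.eval_pow, Polynomial.eval_X, ← map_pow, ← map_sub, Ideal.Quotient.eq_zero_iff_mem]
    exact h x
  have hle : Fintype.card (𝓞 L ⧸ P.asIdeal) ≤ q := by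
    calc Fintype.card (𝓞 L ⧸ P.asIdeal)
        ≤ (Polynomial.X ^ q - Polynomial.X : Polynomial (𝓞 L ⧸ P.asIdeal)).roots.toFinset.card := by
          rw [← Finset.card_univ]
          exact Finset.card_le_card fun y _ => hroot y
      _ ≤ Multiset.card (Polynomial.X ^ q - Polynomial.X : Polynomial (𝓞 L ⧸ P.asIdeal)).roots :=
          Multiset.toFinset_card_le _
      _ ≤ (Polynomial.X ^ q - Polynomial.X : Polynomial (𝓞 L ⧸ P.asIdeal)).natDegree :=
          Polynomial.card_roots' _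
      _ = q := FiniteField.X_pow_card_sub_X_natDegree_eq _ hq1
  rw [← Nat.card_eq_fintype_card, hcard] at hle
  have h1 := rdeg_pos (K := F) P
  by_contra hne
  have h2 : 2 ≤ rdeg F P := by omega
  have h3 : q ^ 2 ≤ q ^ rdeg F P := Nat.pow_le_pow_right (by omega) h2
  nlinarith

/-- If a Frobenius element at `p` fixes the field `L`, then there is a prime of `L` of relative degree one above
`p`, with the same Frobenius element. -/
lemma exists_prime {p : HeightOneSpectrum (𝓞 F)} {Φ : C ≃ₐ[F] C} (hΦ : IsFrobenius p Φ)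
    (Φ' : C ≃ₐ[L] C) (hΦ' : ∀ x, Φ' x = Φ x) :
    ∃ P : HeightOneSpectrum (𝓞 L), P.under (𝓞 F) = p ∧ rdeg F P = 1 ∧ IsFrobenius P Φ' := by
  obtain ⟨w, hwm, hwp, hw⟩ := hΦ
  have hmap : algebraMap (𝓞 F) (𝓞 C) = (algebraMap (𝓞 L) (𝓞 C)).comp (algebraMap (𝓞 F) (𝓞 L)) :=
    IsScalarTower.algebraMap_eq (𝓞 F) (𝓞 L) (𝓞 C)
  have hp2 : (w.comap (algebraMap (𝓞 L) (𝓞 C))).comap (algebraMap (𝓞 F) (𝓞 L)) = p.asIdeal := by
    rw [Ideal.comap_comap, ← hmap, hwp]
  have hpr : w.IsPrime := hwm.isPrime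
  have h0 : w.comap (algebraMap (𝓞 L) (𝓞 C)) ≠ ⊥ := by
    intro h
    apply p.ne_bot
    rw [← hp2, h, ← RingHom.ker_eq_comap_bot]
    exact (RingHom.injective_iff_ker_eq_bot _).1 (FaithfulSMul.algebraMap_injective (𝓞 F) (𝓞 L))
  set P : HeightOneSpectrum (𝓞 L) := ⟨w.comap (algebraMap (𝓞 L) (𝓞 C)), Ideal.comap_isPrime _ _, h0⟩
    with hPdef
  have hPu : P.under (𝓞 F) = p := HeightOneSpectrum.ext hp2
  have hdeg : rdeg F P = 1 := by
    apply rdeg_one
    intro x
    rw [hPu]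
    obtain ⟨y, hy, hyx⟩ := hw (algebraMap (𝓞 L) (𝓞 C) x)
    have h1 : ((algebraMap (𝓞 L) (𝓞 C) x : 𝓞 C) : C) = algebraMap L C (x : L) := rfl
    have h2 : Φ (algebraMap L C (x : L)) = algebraMap L C (x : L) := by
      rw [← hΦ', AlgEquiv.commutes]
    rw [h1, h2] at hyx
    have h3 : algebraMap (𝓞 L) (𝓞 C) (x ^ Ideal.absNorm p.asIdeal - x) = -y := by
      apply RingOfIntegers.ext
      have e1 : ((algebraMap (𝓞 L) (𝓞 C) (x ^ Ideal.absNorm p.asIdeal - x) : 𝓞 C) : C) =
          algebraMap L C ((x ^ Ideal.absNorm p.asIdeal - x : 𝓞 L) : L) := rfl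
      have e2 : (((-y : 𝓞 C)) : C) = -(y : C) := rfl
      have e3 : ((x ^ Ideal.absNorm p.asIdeal - x : 𝓞 L) : L) =
          (x : L) ^ Ideal.absNorm p.asIdeal - (x : L) := rfl
      rw [e1, e2, hyx, e3, map_sub, map_pow]
      ring
    change algebraMap (𝓞 L) (𝓞 C) (x ^ Ideal.absNorm p.asIdeal - x) ∈ w
    rw [h3]
    exact w.neg_mem hy
  refine ⟨P, hPu, hdeg, w, hwm, rfl, fun x => ?_⟩
  obtain ⟨y, hy, hyx⟩ := hw x
  refine ⟨y, hy, ?_⟩
  rw [absNorm_rdeg (K := F) P, hdeg, pow_one, hPu, hyx, hΦ']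

end split

section core

variable {F E L E' C : Type} [Field F] [NumberField F] [Field E] [NumberField E] [Field L]
  [NumberField L] [Field E'] [NumberField E'] [Field C] [NumberField C]
  [Algebra F E] [Algebra F L] [Algebra F E'] [Algebra F C] [Algebra E E'] [Algebra E C]
  [Algebra L E'] [Algebra L C] [Algebra E' C] [IsScalarTower F E E'] [IsScalarTower F L E']
  [IsScalarTower F E C] [IsScalarTower F L C] [IsScalarTower L E' C] [IsScalarTower E E' C]
  [IsScalarTower F E' C] [IsGalois F E] [IsGalois L E'] [IsGalois L C]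

/-- the restriction map `Gal(E'/L) → Gal(E/F)` -/
noncomputable def th (F E L E' : Type) [Field F] [Field E] [Field L] [Field E'] [Algebra F E]
    [Algebra F L] [Algebra F E'] [Algebra E E'] [Algebra L E'] [IsScalarTower F E E']
    [IsScalarTower F L E'] [Normal F E] : (E' ≃ₐ[L] E') →* (E ≃ₐ[F] E) :=
  (AlgEquiv.restrictNormalHom E).comp (AlgEquiv.restrictScalarsHom F)

lemma th_apply (g : E' ≃ₐ[L] E') (x : E) :
    algebraMap E E' (th F E L E' g x) = g (algebraMap E E' x) :=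
  AlgEquiv.restrictNormal_commutes (AlgEquiv.restrictScalars F g) E x

lemma th_restrict {Φ : C ≃ₐ[F] C} (Φ' : C ≃ₐ[L] C) (hΦ' : ∀ x, Φ' x = Φ x) :
    th F E L E' (AlgEquiv.restrictNormal Φ' E') = AlgEquiv.restrictNormal Φ E := by
  ext x
  apply (algebraMap E C).injective
  rw [AlgEquiv.restrictNormal_commutes, IsScalarTower.algebraMap_apply E E' C, th_apply,
    AlgEquiv.restrictNormal_commutes, hΦ', ← IsScalarTower.algebraMap_apply E E' C]

/-- the image of `HN` under the norm -/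
lemma HN_map (hNm : S_Nm) (hTow : S_Tow) {N m : ℕ} (hN : N ≠ 0) (hm : m ≠ 0) {D : Dv L}
    (hD : D ∈ HN L E' (N * m)) : nmD F L D ∈ HN F E N := by
  have hNm0 : N * m ≠ 0 := mul_ne_zero hN hm
  have hmem : ∀ (X : Type) [Field X] [NumberField X] (v : HeightOneSpectrum (𝓞 X)),
      (N : 𝓞 X) ∈ v.asIdeal → ((N * m : ℕ) : 𝓞 X) ∈ v.asIdeal := by
    intro X _ _ v hv
    rw [Nat.cast_mul]
    exact v.asIdeal.mul_mem_right _ hv
  have hle : HN L E' (N * m) ≤ (HN F E N).comap (nmD F L) := by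
    unfold HN
    refine sup_le ?_ ?_
    · unfold RayD
      rw [AddSubgroup.closure_le]
      rintro _ ⟨x, hx, rfl⟩
      refine (AddSubgroup.mem_comap).2 ?_
      rw [(hNm F L).1 x]
      refine AddSubgroup.mem_sup_left (AddSubgroup.subset_closure ⟨nu F L x, ?_, rfl⟩)
      obtain ⟨h1, h2⟩ := (hNm F L).2.2.1 (N * m) hNm0 x hx
      refine ⟨fun v hv => (h1 v (hmem F v hv)).trans ?_, h2⟩
      rw [Nat.cast_mul, map_mul]
      have h3 : v.valuation F (m : F) ≤ 1 := by
        have := v.valuation_le_one (K := F) (m : 𝓞 F)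
        simpa using this
      exact mul_le_of_le_one_right' h3
    · rintro _ ⟨D', hD', rfl⟩
      refine (AddSubgroup.mem_comap).2 ?_
      rw [hTow F L E' D', ← hTow F E E' D']
      refine AddSubgroup.mem_sup_right ⟨nmD E E' D', ?_, rfl⟩
      have h1 := (hNm E E').2.2.2.1 (N * m) D' hD'
      exact fun v hv => h1 v (hmem E v hv)
  exact hle hD

theorem core (hCycK : S_CycK) (hUnr : S_Unr) (hFR : S_FR) (hNm : S_Nm) (hTow : S_Tow)
    {σ : E ≃ₐ[F] E} (hσ : ∀ g : E ≃ₐ[F] E, g ∈ Subgroup.zpowers σ) {m : ℕ} [NeZero m]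
    [IsCyclotomicExtension {m} E C] [IsCyclotomicExtension {m} L C]
    {p r : HeightOneSpectrum (𝓞 F)} {Φp Φr : C ≃ₐ[F] C} {d N : ℕ} (hN : N ≠ 0) (hRam : Ram F E N)
    (hNp : (N : 𝓞 F) ∉ p.asIdeal) (hNr : (N : 𝓞 F) ∉ r.asIdeal) (hmp : (m : 𝓞 F) ∉ p.asIdeal)
    (hmr : (m : 𝓞 F) ∉ r.asIdeal) (hp : IsFrobenius p Φp) (hr : IsFrobenius r Φr)
    (hsr : AlgEquiv.restrictNormal Φr E = σ) (hsp : AlgEquiv.restrictNormal Φp E = σ ^ d)
    (Φp' Φr' : C ≃ₐ[L] C) (hΦp : ∀ x, Φp' x = Φp x) (hΦr : ∀ x, Φr' x = Φr x)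
    (hgen : ∀ g : E' ≃ₐ[L] E', (∀ x : E, g (algebraMap E E' x) = algebraMap E E' x) → g = 1) :
    Finsupp.single p 1 - (d : ℤ) • Finsupp.single r 1 ∈ HN F E N := by
  classical
  have hm0 : m ≠ 0 := NeZero.ne m
  -- the primes of `L`
  obtain ⟨P, hPp, hPd, hPf⟩ := exists_prime hp Φp' hΦp
  obtain ⟨R, hRr, hRd, hRf⟩ := exists_prime hr Φr' hΦr
  -- membership in primes of `L` and `F`
  have hcast : ∀ (v : HeightOneSpectrum (𝓞 L)) (k : ℕ),
      (k : 𝓞 L) ∈ v.asIdeal ↔ (k : 𝓞 F) ∈ (v.under (𝓞 F)).asIdeal := by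
    intro v k
    change _ ↔ algebraMap (𝓞 F) (𝓞 L) (k : 𝓞 F) ∈ v.asIdeal
    rw [map_natCast]
  have hprod : ∀ v : HeightOneSpectrum (𝓞 L), ((N * m : ℕ) : 𝓞 L) ∈ v.asIdeal ↔
      (N : 𝓞 F) ∈ (v.under (𝓞 F)).asIdeal ∨ (m : 𝓞 F) ∈ (v.under (𝓞 F)).asIdeal := by
    intro v
    rw [hcast, Nat.cast_mul]
    exact (v.under (𝓞 F)).isPrime.mul_mem_iff_mem_or_mem
  -- unramified primes
  have hunr : ∀ v : HeightOneSpectrum (𝓞 L), ((N * m : ℕ) : 𝓞 L) ∉ v.asIdeal → Unramified E' v := by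
    intro v hv
    rw [hprod, not_or] at hv
    have h1 : Unramified E (v.under (𝓞 F)) := by
      by_contra hc
      exact hv.1 (hRam _ hc)
    have h2 : Unramified C (v.under (𝓞 F)) := hUnr.2.2 F E C m _ h1 hv.2
    have h3 : Unramified C v := hFR.2.2.1 F L C v h2
    exact h3.sub
  have hRamL : Ram L E' (N * m) := fun v hv => by
    by_contra hc
    exact hv (hunr v hc)
  -- an injective character
  set n := orderOf σ with hn
  have hn0 : n ≠ 0 := (orderOf_pos σ).ne'
  obtain ⟨ξ, hξ⟩ : ∃ ξ : ℂˣ, IsPrimitiveRoot ξ n := by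
    have h := Complex.isPrimitiveRoot_exp n hn0
    refine ⟨h.isUnit hn0 |>.unit, ?_⟩
    rw [← IsPrimitiveRoot.coe_units_iff]
    exact h
  have hξn : orderOf ξ = n := hξ.eq_orderOf.symm
  set ψ : (E ≃ₐ[F] E) →* ℂˣ := monoidHomOfForallMemZpowers hσ (g' := ξ) (by rw [hξn]) with hψ
  have hψσ : ψ σ = ξ := monoidHomOfForallMemZpowers_apply_gen hσ _
  have hψi : Function.Injective ψ := by
    rw [injective_iff_map_eq_one]
    intro g hg
    obtain ⟨k, rfl⟩ := hσ g
    simp only at hg ⊢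
    rw [map_zpow, hψσ, ← orderOf_dvd_iff_zpow_eq_one, hξn] at hg
    rwa [← orderOf_dvd_iff_zpow_eq_one]
  set ψ' : (E' ≃ₐ[L] E') →* ℂˣ := ψ.comp (th F E L E') with hψ'
  have hψi' : Function.Injective ψ' := by
    rw [injective_iff_map_eq_one]
    intro g hg
    have h1 : th F E L E' g = 1 := hψi (by rw [map_one]; exact hg)
    apply hgen
    intro x
    rw [← th_apply (F := F), h1]
    rfl
  -- Frobenius elements
  have hfrob : ∀ (v : HeightOneSpectrum (𝓞 L)) (Φ' : C ≃ₐ[L] C), ((N * m : ℕ) : 𝓞 L) ∉ v.asIdeal →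
      IsFrobenius v Φ' → ψ' (frob E' v) = ψ' (AlgEquiv.restrictNormal Φ' E') := by
    intro v Φ' hv hΦ
    have h1 : IsFrobenius v (AlgEquiv.restrictNormal Φ' E') := hFR.1 L E' C v Φ' hΦ
    obtain ⟨h, hh⟩ := isFrobenius_conj (hunr v hv) (frob_spec (M := E') v) h1
    rw [hh, map_mul, map_mul, map_inv]
    rw [mul_comm, ← mul_assoc, mul_inv_cancel, one_mul]
  have hvP : ((N * m : ℕ) : 𝓞 L) ∉ P.asIdeal := by
    rw [hprod, hPp, not_or]
    exact ⟨hNp, hmp⟩
  have hvR : ((N * m : ℕ) : 𝓞 L) ∉ R.asIdeal := by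
    rw [hprod, hRr, not_or]
    exact ⟨hNr, hmr⟩
  have hP1 : ψ' (frob E' P) = ξ ^ d := by
    rw [hfrob P Φp' hvP hPf, hψ', MonoidHom.comp_apply, th_restrict (F := F) (E := E) Φp' hΦp, hsp,
      map_pow, hψσ]
  have hR1 : ψ' (frob E' R) = ξ := by
    rw [hfrob R Φr' hvR hRf, hψ', MonoidHom.comp_apply, th_restrict (F := F) (E := E) Φr' hΦr, hsr,
      hψσ]
  -- the divisor
  set D : Dv L := Finsupp.single P 1 - (d : ℤ) • Finsupp.single R 1 with hD
  have hDPr : D ∈ Pr L (N * m) := by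
    intro v hv
    have h1 : P ≠ v := fun h => hvP (h ▸ hv)
    have h2 : R ≠ v := fun h => hvR (h ▸ hv)
    rw [hD, Finsupp.sub_apply, Finsupp.smul_apply, Finsupp.single_eq_of_ne h1.symm,
      Finsupp.single_eq_of_ne h2.symm, smul_zero, sub_zero]
  have hDart : art ψ' D = 0 := by
    rw [hD, map_sub, map_zsmul, art_single, art_single, hP1, hR1, one_zsmul, one_zsmul, ofMul_pow,
      natCast_zsmul, sub_self]
  have hDHN := hCycK L E' C m (N * m) (mul_ne_zero hN hm0) (dvd_mul_left m N) hRamL ψ' hψi' D hDPr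
    hDart
  have hfin := HN_map (F := F) (E := E) hNm hTow hN hm0 hDHN
  have hnm : nmD F L D = Finsupp.single p 1 - (d : ℤ) • Finsupp.single r 1 := by
    rw [hD, map_sub, map_zsmul, nmD_single, nmD_single, hPp, hRr, hPd, hRd]
    simp
  rwa [hnm] at hfin

end core

lemma mem_fix {K M : Type} [Field K] [Field M] [Algebra K M] (g : M ≃ₐ[K] M) {y : M} (hy : g y = y) :
    y ∈ IntermediateField.fixedField (Subgroup.zpowers g) := by
  have h : Subgroup.zpowers g ≤ MulAction.stabilizer (M ≃ₐ[K] M) y := by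
    rw [Subgroup.zpowers_le]
    exact hy
  rintro ⟨k, hk⟩
  exact h hk

/-- Crossing with a cyclotomic extension. -/
theorem cross : S_CycK → S_Unr → S_FR → S_Nm → S_Tow → S_Cross := by
  intro hCycK hUnr hFR hNm hTow F E C _ _ _ _ _ _ _ _ _ _ _ _ σ hσ hab m _ _ ζ hζ p r Φp Φr d N hN hRam
    hNp hNr hmp hmr hp hr hsr hsp hH
  classical
  set H : Subgroup (C ≃ₐ[F] C) := Subgroup.closure {Φp, Φr} with hHdef
  let L : IntermediateField F C := IntermediateField.fixedField H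
  let jE : E →ₐ[F] C := IsScalarTower.toAlgHom F E C
  let E' : IntermediateField F C := L ⊔ jE.fieldRange
  have hLE : L ≤ E' := le_sup_left
  have hEE : jE.fieldRange ≤ E' := le_sup_right
  let _ : Algebra L E' := (IntermediateField.inclusion hLE).toRingHom.toAlgebra
  have hjmem : ∀ x : E, jE x ∈ E' := fun x => hEE ⟨x, rfl⟩
  let _ : Algebra E E' := (jE.toRingHom.codRestrict E'.toSubfield hjmem).toAlgebra
  have : IsScalarTower F L E' := IsScalarTower.of_algebraMap_eq fun x => rfl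
  have : IsScalarTower L E' C := IsScalarTower.of_algebraMap_eq fun x => rfl
  have : IsScalarTower E E' C := IsScalarTower.of_algebraMap_eq fun x => rfl
  have : IsScalarTower F E E' := IsScalarTower.of_algebraMap_eq fun x => by
    apply (algebraMap E' C).injective
    change algebraMap F C x = algebraMap E C (algebraMap F E x)
    exact IsScalarTower.algebraMap_apply F E C x
  have hAb : IsAbelianGalois F C := { is_comm := ⟨hab⟩ }
  have : IsAbelianGalois L C := IsAbelianGalois.tower_top F L C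
  have : IsAbelianGalois L E' := IsAbelianGalois.tower_bot L E' C
  have : IsGalois L E' := inferInstance
  have : IsGalois L C := inferInstance
  have hfix : ∀ g ∈ H, ∀ x : L, g (x : C) = x := by
    intro g hg x
    exact x.2 ⟨g, hg⟩
  -- Galois group of `C/L`
  have hCL : ∀ g : C ≃ₐ[L] C, AlgEquiv.restrictScalars F g ∈ H := by
    intro g
    rw [← IntermediateField.fixingSubgroup_fixedField H, IntermediateField.mem_fixingSubgroup_iff]
    intro x hx
    exact g.commutes ⟨x, hx⟩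
  -- `C = L(ζ)`
  have : IsCyclotomicExtension {m} L C := by
    rw [IsCyclotomicExtension.iff_singleton]
    refine ⟨⟨ζ, hζ⟩, fun x => ?_⟩
    have h1 : IntermediateField.adjoin L {ζ} = (⊤ : IntermediateField L C) := by
      rw [← IsGalois.fixedField_fixingSubgroup (IntermediateField.adjoin L {ζ})]
      have h2 : (IntermediateField.adjoin L {ζ} : IntermediateField L C).fixingSubgroup = ⊥ := by
        rw [eq_bot_iff]
        intro g hg
        rw [IntermediateField.mem_fixingSubgroup_iff] at hg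
        have h3 := hH _ (hCL g) (hg ζ (IntermediateField.mem_adjoin_simple_self L ζ))
        rw [Subgroup.mem_bot]
        ext y
        exact DFunLike.congr_fun h3 y
      rw [h2, IntermediateField.fixedField_bot]
    have h4 : x ∈ (IntermediateField.adjoin L {ζ} : IntermediateField L C).toSubalgebra := by
      rw [h1]
      trivial
    rw [IntermediateField.adjoin_simple_toSubalgebra_of_isAlgebraic
      (Algebra.IsAlgebraic.isAlgebraic ζ)] at h4
    refine Algebra.adjoin_mono ?_ h4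
    intro y hy
    rw [Set.mem_singleton_iff] at hy
    rw [hy]
    exact hζ.pow_eq_one
  have hΦpH : Φp ∈ H := Subgroup.subset_closure (by simp)
  have hΦrH : Φr ∈ H := Subgroup.subset_closure (by simp)
  let Φp' : C ≃ₐ[L] C := AlgEquiv.ofRingEquiv (f := Φp.toRingEquiv) fun x => hfix Φp hΦpH x
  let Φr' : C ≃ₐ[L] C := AlgEquiv.ofRingEquiv (f := Φr.toRingEquiv) fun x => hfix Φr hΦrH x
  refine core (L := L) (E' := E') (C := C) hCycK hUnr hFR hNm hTow hσ hN hRam hNp hNr hmp hmr hp hr hsr hsp Φp' Φr'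
    (fun x => rfl) (fun x => rfl) ?_
  intro g hg
  -- an automorphism of `E'` trivial on `L` and on `E`
  have h1 : E' ≤ (IntermediateField.map E'.val
      (IntermediateField.fixedField (Subgroup.zpowers (AlgEquiv.restrictScalars F g)))) := by
    refine sup_le ?_ ?_
    · intro x hx
      refine ⟨⟨x, hLE hx⟩, mem_fix _ ?_, rfl⟩
      exact g.commutes ⟨x, hx⟩
    · rintro _ ⟨x, rfl⟩
      exact ⟨algebraMap E E' x, mem_fix _ (hg x), rfl⟩
  ext y
  obtain ⟨z, hz, hzy⟩ := h1 y.2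
  have h2 : z = y := Subtype.ext hzy
  rw [h2] at hz
  have h3 : g y = y := hz ⟨AlgEquiv.restrictScalars F g, Subgroup.mem_zpowers _⟩
  rw [h3]
  rfl

end Pool.Agent.Q129.AR
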